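import Pool.Agent.W580.SH.StmC

/-! Project SH: Heller's example, the difference vectors are unimodular. -/

set_option autoImplicit false

namespace Pool.Agent.W212.SH

open Pool.Agent.W580.SH

/-- every column has entries in `{-1,0,1}`, at most one `1` and at most one `-1` -/
def Good {k l : ℕ} (M : Matrix (Fin k) (Fin l) ℤ) : Prop :=
  ∀ j, (∀ i, M i j = -1 ∨ M i j = 0 ∨ M i j = 1) ∧
    (∀ i i', M i j = 1 → M i' j = 1 → i = i') ∧ (∀ i i', M i j = -1 → M i' j = -1 → i = i')

lemma good_sub {k l k' l' : ℕ} {M : Matrix (Fin k) (Fin l) ℤ} (h : Good M)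
    (r : Fin k' → Fin k) (hr : Function.Injective r) (s : Fin l' → Fin l) :
    Good (M.submatrix r s) := by
  intro j
  obtain ⟨h1, h2, h3⟩ := h (s j)
  exact ⟨fun i => h1 (r i), fun i i' a b => hr (h2 _ _ a b), fun i i' a b => hr (h3 _ _ a b)⟩

lemma det_good : ∀ (k : ℕ) (M : Matrix (Fin k) (Fin k) ℤ), Good M → |M.det| ≤ 1 := by
  intro k
  induction k with
  | zero => intro M _; simp
  | succ k ih =>
    intro M hM
    by_cases hA : ∃ j i0, ∀ i, i ≠ i0 → M i j = 0
    · obtain ⟨j, i0, h⟩ := hA
      rw [Matrix.det_succ_column M j]
      rw [Finset.sum_eq_single i0]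
      · have h1 := ih (M.submatrix i0.succAbove j.succAbove)
          (good_sub hM _ Fin.succAbove_right_injective _)
        rw [abs_mul, abs_mul, abs_pow, abs_neg, abs_one, one_pow, one_mul]
        have h2 : |M i0 j| ≤ 1 := by
          rcases (hM j).1 i0 with h | h | h <;> rw [h] <;> simp
        calc |M i0 j| * |(M.submatrix i0.succAbove j.succAbove).det| ≤ 1 * 1 :=
            mul_le_mul h2 h1 (abs_nonneg _) zero_le_one
          _ = 1 := one_mul 1
      · intro b _ hb
        rw [h b hb]; simp
      · intro hb
        exact absurd (Finset.mem_univ _) hb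
    · push Not at hA
      have hdet : M.det = 0 := by
        rw [← Matrix.exists_vecMul_eq_zero_iff]
        refine ⟨fun _ => 1, ?_, ?_⟩
        · intro hz
          have := congrFun hz 0
          simp at this
        · funext j
          obtain ⟨i1, -, h1⟩ := hA j 0
          obtain ⟨i2, h21, h2⟩ := hA j i1
          obtain ⟨g1, g2, g3⟩ := hM j
          simp only [Matrix.vecMul, dotProduct, one_mul, Pi.zero_apply]
          have hcase : (M i1 j = 1 ∧ M i2 j = -1) ∨ (M i1 j = -1 ∧ M i2 j = 1) := by
            rcases g1 i1 with a | a | a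
            · rcases g1 i2 with b | b | b
              · exact absurd (g3 _ _ b a) h21
              · exact absurd b h2
              · exact Or.inr ⟨a, b⟩
            · exact absurd a h1
            · rcases g1 i2 with b | b | b
              · exact Or.inl ⟨a, b⟩
              · exact absurd b h2
              · exact absurd (g2 _ _ b a) h21
          rw [Finset.sum_eq_add i1 i2 h21.symm]
          · rcases hcase with ⟨a, b⟩ | ⟨a, b⟩ <;> rw [a, b] <;> norm_num
          · intro i _ hi
            rcases g1 i with b | b | b
            · exfalso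
              rcases hcase with ⟨a, a'⟩ | ⟨a, a'⟩
              · exact hi.2 (g3 _ _ b a')
              · exact hi.1 (g3 _ _ b a)
            · exact b
            · exfalso
              rcases hcase with ⟨a, a'⟩ | ⟨a, a'⟩
              · exact hi.1 (g2 _ _ b a)
              · exact hi.2 (g2 _ _ b a')
          · intro h; exact absurd (Finset.mem_univ _) h
          · intro h; exact absurd (Finset.mem_univ _) h
      rw [hdet]; simp

/-- index set of the columns -/
abbrev Idx (m : ℕ) : Type :=
  Option {p : Option (Fin m) × Option (Fin m) // p.1 ≠ p.2}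

lemma card_idx (m : ℕ) : Fintype.card (Idx m) = m ^ 2 + m + 1 := by
  rw [Fintype.card_option, Fintype.card_subtype]
  have : (Finset.univ.filter (fun p : Option (Fin m) × Option (Fin m) => p.1 ≠ p.2)) =
      (Finset.univ : Finset (Option (Fin m))).offDiag := by
    ext p; simp
  rw [this, Finset.offDiag_card, Finset.card_univ, Fintype.card_option, Fintype.card_fin]
  have : (m + 1) * (m + 1) = m ^ 2 + m + (m + 1) := by ring
  omega

/-- the column vectors -/
def col {m : ℕ} (x : Idx m) (i : Fin m) : ℤ :=
  match x with
  | none => 0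
  | some p => (if p.1.1 = some i then 1 else 0) - (if p.1.2 = some i then 1 else 0)

lemma col_none {m : ℕ} (i : Fin m) : col (none : Idx m) i = 0 := rfl

lemma col_some {m : ℕ} (p : {p : Option (Fin m) × Option (Fin m) // p.1 ≠ p.2}) (i : Fin m) :
    col (some p : Idx m) i =
      (if p.1.1 = some i then 1 else 0) - (if p.1.2 = some i then 1 else 0) := rfl

lemma col_one {m : ℕ} (p : {p : Option (Fin m) × Option (Fin m) // p.1 ≠ p.2}) (i : Fin m) :
    col (some p : Idx m) i = 1 ↔ p.1.1 = some i := by
  rw [col_some]
  constructor
  · intro h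
    by_contra hc
    rw [if_neg hc] at h
    split_ifs at h <;> omega
  · intro h
    have h2 : ¬ p.1.2 = some i := fun h' => p.2 (h.trans h'.symm)
    rw [if_pos h, if_neg h2]; rfl

lemma col_neg {m : ℕ} (p : {p : Option (Fin m) × Option (Fin m) // p.1 ≠ p.2}) (i : Fin m) :
    col (some p : Idx m) i = -1 ↔ p.1.2 = some i := by
  rw [col_some]
  constructor
  · intro h
    by_contra hc
    rw [if_neg hc] at h
    split_ifs at h <;> omega
  · intro h
    have h2 : ¬ p.1.1 = some i := fun h' => p.2 (h'.trans h.symm)
    rw [if_pos h, if_neg h2]; rfl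

lemma col_inj {m : ℕ} : Function.Injective (col : Idx m → Fin m → ℤ) := by
  intro x y hxy
  have key : ∀ p : {p : Option (Fin m) × Option (Fin m) // p.1 ≠ p.2},
      ∃ i, col (some p : Idx m) i ≠ 0 := by
    rintro ⟨⟨a, b⟩, hab⟩
    rcases a with _ | i
    · rcases b with _ | i
      · exact absurd rfl hab
      · refine ⟨i, ?_⟩
        have := (col_neg ⟨(none, some i), hab⟩ i).2 rfl
        rw [this]; norm_num
    · refine ⟨i, ?_⟩
      have := (col_one ⟨(some i, b), hab⟩ i).2 rfl
      rw [this]; norm_num
  rcases x with _ | p <;> rcases y with _ | p'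
  · rfl
  · obtain ⟨i, hi⟩ := key p'
    exact absurd (by rw [← hxy]; rfl) hi
  · obtain ⟨i, hi⟩ := key p
    exact absurd (by rw [hxy]; rfl) hi
  · congr 1
    apply Subtype.ext
    apply Prod.ext
    · apply Option.ext
      intro i
      have h := congrFun hxy i
      have h1 := col_one p i
      have h2 := col_one p' i
      rw [h] at h1
      have : p.1.1 = some i ↔ p'.1.1 = some i := h1.symm.trans h2
      exact this
    · apply Option.ext
      intro i
      have h := congrFun hxy i
      have h1 := col_neg p i
      have h2 := col_neg p' i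
      rw [h] at h1
      have : p.1.2 = some i ↔ p'.1.2 = some i := h1.symm.trans h2
      exact this

lemma col_good {m : ℕ} (x : Idx m) :
    (∀ i, col x i = -1 ∨ col x i = 0 ∨ col x i = 1) ∧
    (∀ i i', col x i = 1 → col x i' = 1 → i = i') ∧
    (∀ i i', col x i = -1 → col x i' = -1 → i = i') := by
  rcases x with _ | p
  · refine ⟨fun i => Or.inr (Or.inl rfl), ?_, ?_⟩
    · intro i i' h; rw [col_none] at h; omega
    · intro i i' h; rw [col_none] at h; omega
  · refine ⟨?_, ?_, ?_⟩
    · intro i
      rw [col_some]
      split_ifs <;> norm_num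
    · intro i i' h h'
      rw [col_one] at h h'
      rw [h] at h'
      exact Option.some.inj h'
    · intro i i' h h'
      rw [col_neg] at h h'
      rw [h] at h'
      exact Option.some.inj h'

theorem main : S_LOW := by
  intro m _
  set e : Fin (m ^ 2 + m + 1) ≃ Idx m := (Fintype.equivFinOfCardEq (card_idx m)).symm with he
  refine ⟨Matrix.of fun i j => col (e j) i, ?_, ?_, ?_⟩
  · intro j j' h
    apply e.injective
    apply col_inj
    funext i
    exact congrFun h i
  · refine ⟨fun i => e.symm (some ⟨(some i, none), by simp⟩), ?_⟩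
    have : (Matrix.of fun i j => col (e j) i).submatrix id
        (fun i : Fin m => e.symm (some ⟨(some i, none), by simp⟩)) = (1 : Matrix (Fin m) (Fin m) ℤ) := by
      ext i j
      rw [Matrix.submatrix_apply, Matrix.of_apply, Equiv.apply_symm_apply, col_some,
        Matrix.one_apply]
      by_cases h : i = j
      · subst h; simp
      · have h2 : ¬ (j = i) := fun h' => h h'.symm
        simp [h, h2]
    rw [this, Matrix.det_one]
    exact one_ne_zero
  · intro s
    apply det_good
    intro j
    exact col_good (e (s j))

end Pool.Agent.W212.SH
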